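import Mathlib
import Pool.Agent.Results.MP_49092c_al.Disproof

set_option autoImplicit false

namespace Pool.Agent.Results.MP_36bee5_al.EveryField

universe u

open MvPolynomial

section Defs

variable {K : Type u} [Field K] {n : ℕ}

/-- The element `r` of `K[x_1,…,x_n]/J` is the class of a form of degree `d`. -/
def IsFormClass (J : Ideal (MvPolynomial (Fin n) K)) (d : ℕ)
    (r : MvPolynomial (Fin n) K ⧸ J) : Prop :=
  ∃ p : MvPolynomial (Fin n) K, p.IsHomogeneous d ∧ Ideal.Quotient.mk J p = r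

/-- `J` is a homogeneous ideal contained in `(x_1,…,x_n)^2`. -/
def IsStandardIdeal (J : Ideal (MvPolynomial (Fin n) K)) : Prop :=
  (∀ p ∈ J, ∀ i : ℕ, homogeneousComponent i p ∈ J) ∧
    J ≤ Ideal.span (Set.range (X : Fin n → MvPolynomial (Fin n) K)) ^ 2

/-- The ideal `I` of `K[x_1,…,x_n]/J` is generated by linear forms. -/
def GeneratedByLinearForms (J : Ideal (MvPolynomial (Fin n) K))
    (I : Ideal (MvPolynomial (Fin n) K ⧸ J)) : Prop :=
  I = Ideal.span {r | r ∈ I ∧ IsFormClass J 1 r}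

/-- `F` is a Koszul filtration of `R = K[x_1,…,x_n]/J`: its members are ideals generated by linear
forms, the zero ideal and the maximal homogeneous ideal belong to `F`, and for every nonzero `I` in
`F` there is `L` in `F` with `L ≤ I`, `I / L` cyclic and `L : I` in `F`. -/
def IsKoszulFiltration (J : Ideal (MvPolynomial (Fin n) K))
    (F : Set (Ideal (MvPolynomial (Fin n) K ⧸ J))) : Prop :=
  (∀ I ∈ F, GeneratedByLinearForms J I) ∧ ⊥ ∈ F ∧
    Ideal.span {r | IsFormClass J 1 r} ∈ F ∧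
    ∀ I ∈ F, I ≠ ⊥ → ∃ L ∈ F, L ≤ I ∧
      (∃ x : MvPolynomial (Fin n) K ⧸ J, I = L ⊔ Ideal.span {x}) ∧
      ∃ C ∈ F, ∀ r : MvPolynomial (Fin n) K ⧸ J, r ∈ C ↔ ∀ y ∈ I, r * y ∈ L

/-- The ideal `I` of `R = K[x_1,…,x_n]/J` has a `d`-linear graded free resolution over `R`. -/
def HasLinearRes (J : Ideal (MvPolynomial (Fin n) K))
    (I : Ideal (MvPolynomial (Fin n) K ⧸ J)) (d : ℕ) : Prop :=
  ∃ (b : ℕ → ℕ) (g : Fin (b 0) → MvPolynomial (Fin n) K ⧸ J)
    (A : (i : ℕ) → Matrix (Fin (b i)) (Fin (b (i + 1))) (MvPolynomial (Fin n) K ⧸ J)),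
    (∀ j, IsFormClass J d (g j)) ∧ (∀ i r c, IsFormClass J 1 (A i r c)) ∧
    Ideal.span (Set.range g) = I ∧
    (∀ v : Fin (b 0) → MvPolynomial (Fin n) K ⧸ J,
      ∑ j, v j * g j = 0 ↔ ∃ w, (A 0).mulVec w = v) ∧
    (∀ (i : ℕ) (v : Fin (b (i + 1)) → MvPolynomial (Fin n) K ⧸ J),
      (A i).mulVec v = 0 ↔ ∃ w, (A (i + 1)).mulVec w = v)

end Defs

section Abstract

open Pool.Agent.Results.MP_49092c_al.Disproof

variable {R : Type u} [CommRing R] {L : R → Prop}

lemma filtration_step [IsNoetherianRing R] (hcol : ColonProp L) (I : Ideal R)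
    (hI : LinGen L I) (hne : I ≠ ⊥) :
    ∃ N : Ideal R, LinGen L N ∧ N ≤ I ∧ (∃ x : R, I = N ⊔ Ideal.span {x}) ∧
      ∃ C : Ideal R, LinGen L C ∧ ∀ r : R, r ∈ C ↔ ∀ y ∈ I, r * y ∈ N := by
  classical
  have hfin : ∃ T : Finset R, (∀ r ∈ T, L r) ∧ Ideal.span (T : Set R) = I := by
    have hfg : I.FG := IsNoetherian.noetherian I
    unfold LinGen at hI
    rw [hI] at hfg
    obtain ⟨T, hT1, hT2⟩ := (Submodule.fg_span_iff_fg_span_finset_subset _).1 hfg
    refine ⟨T, fun r hr => (hT1 hr).2, ?_⟩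
    rw [hI]
    exact hT2.symm
  have hex : ∃ k : ℕ, ∃ T : Finset R, T.card = k ∧ (∀ r ∈ T, L r) ∧
      Ideal.span (T : Set R) = I := by
    obtain ⟨T, h1, h2⟩ := hfin
    exact ⟨T.card, T, rfl, h1, h2⟩
  obtain ⟨T, hcard, hT, hspan⟩ := Nat.find_spec hex
  have hmin : ∀ S : Finset R, (∀ r ∈ S, L r) → Ideal.span (S : Set R) = I →
      T.card ≤ S.card := by
    intro S h1 h2
    rw [hcard]
    exact Nat.find_min' hex ⟨S, rfl, h1, h2⟩
  have hTne : T.Nonempty := by
    rw [Finset.nonempty_iff_ne_empty]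
    rintro rfl
    apply hne
    rw [← hspan]
    simp
  obtain ⟨x, hx⟩ := hTne
  have hS : ∀ r ∈ T.erase x, L r := fun r hr => hT r (Finset.mem_of_mem_erase hr)
  have hIx : I = Ideal.span ((T.erase x : Finset R) : Set R) ⊔ Ideal.span {x} := by
    rw [← hspan, ← Ideal.span_union]
    congr 1
    ext y
    simp only [Finset.coe_erase, Set.mem_union, Set.mem_sdiff, Set.mem_singleton_iff,
      Finset.mem_coe]
    constructor
    · intro hy
      by_cases h : y = x
      · exact Or.inr h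
      · exact Or.inl ⟨hy, h⟩
    · rintro (h | h)
      · exact h.1
      · rw [h]; exact hx
  have hxN : x ∉ Ideal.span ((T.erase x : Finset R) : Set R) := by
    intro hmem
    have h1 : Ideal.span ((T.erase x : Finset R) : Set R) = I := by
      rw [hIx]
      refine (sup_eq_left.2 ?_).symm
      rw [Ideal.span_singleton_le_iff_mem]
      exact hmem
    have h2 := hmin _ hS h1
    rw [Finset.card_erase_of_mem hx] at h2
    have h3 : 0 < T.card := Finset.card_pos.2 ⟨x, hx⟩
    omega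
  have hN : LinGen L (Ideal.span ((T.erase x : Finset R) : Set R)) := linGen_span _ hS
  refine ⟨_, hN, ?_, ⟨x, hIx⟩, _, hcol _ hN x (hT x hx) hxN, ?_⟩
  · conv_rhs => rw [hIx]
    exact le_sup_left
  · intro r
    rw [Submodule.mem_comap, LinearMap.toSpanSingleton_apply, smul_eq_mul]
    constructor
    · intro hr y hy
      rw [hIx, Submodule.mem_sup] at hy
      obtain ⟨a, ha, b, hb, rfl⟩ := hy
      rw [Ideal.mem_span_singleton'] at hb
      obtain ⟨c, rfl⟩ := hb
      rw [mul_add]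
      refine Ideal.add_mem _ (Ideal.mul_mem_left _ _ ha) ?_
      have : r * (c * x) = c * (r * x) := by ring
      rw [this]
      exact Ideal.mul_mem_left _ _ hr
    · intro h
      apply h
      rw [hIx]
      exact Ideal.mem_sup_right (Ideal.mem_span_singleton_self x)

end Abstract

open Pool.Agent.Results.MP_49092c_al.Disproof in
/-- Over every field `K` there is a standard graded `K`-algebra `R = K[x_1,…,x_n]/J` for which the
set `F` of all ideals generated by linear forms is a Koszul filtration, and there are `I₁, I₂` in `F`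
with `I₁ I₂ ≠ 0` such that `I₁ I₂` does not have a `2`-linear free resolution over `R`, that is
`reg_R(I₁ I₂) > 2`. -/
theorem result : ∀ (K : Type u) [Field K], ∃ (n : ℕ) (J : Ideal (MvPolynomial (Fin n) K))
    (F : Set (Ideal (MvPolynomial (Fin n) K ⧸ J))),
    IsStandardIdeal J ∧ (∀ I, I ∈ F ↔ GeneratedByLinearForms J I) ∧ IsKoszulFiltration J F ∧
    ∃ I₁ ∈ F, ∃ I₂ ∈ F, I₁ * I₂ ≠ ⊥ ∧ ¬ HasLinearRes J (I₁ * I₂) 2 := by
  intro K _
  refine ⟨4, JJ K, {I | GeneratedByLinearForms (JJ K) I}, JJ_standard K, fun I => Iff.rfl,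
    ⟨fun I hI => hI, ?_, ?_, ?_⟩, ?_⟩
  · change LinGen (IsForm (JJ K) 1) ⊥
    have h := linGen_span (L := IsForm (JJ K) 1) ∅ (by simp)
    simpa using h
  · exact linGen_span (L := IsForm (JJ K) 1) _ (fun r hr => hr)
  · intro I hI hne
    obtain ⟨N, h1, h2, h3, C, h4, h5⟩ :=
      filtration_step (L := IsForm (JJ K) 1) colonProp_RR I hI hne
    exact ⟨N, h1, h2, h3, C, h4, h5⟩
  · refine ⟨Ideal.span {xx, zz}, ?_, Ideal.span {yy, tt}, ?_, ?_, ?_⟩
    · refine linGen_span (L := IsForm (JJ K) 1) _ ?_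
      intro r hr
      simp only [Set.mem_insert_iff, Set.mem_singleton_iff] at hr
      rcases hr with rfl | rfl
      · exact form_xx
      · exact form_zz
    · refine linGen_span (L := IsForm (JJ K) 1) _ ?_
      intro r hr
      simp only [Set.mem_insert_iff, Set.mem_singleton_iff] at hr
      rcases hr with rfl | rfl
      · exact form_yy
      · exact form_tt
    · intro hbot
      have h1 : (xx * tt : RR K) ∈ (Ideal.span {xx, zz} : Ideal (RR K)) * Ideal.span {yy, tt} :=
        Ideal.mul_mem_mul (Ideal.subset_span (by simp)) (Ideal.subset_span (by simp))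
      rw [hbot, Ideal.mem_bot] at h1
      exact xt_not_mem (by rw [h1]; exact Ideal.zero_mem _)
    · rintro ⟨b, g, A, hg, hA, hspan, hex, -⟩
      exact no_linear_presentation (b 0) (b 1) g (A 0) hg (hA 0) hspan hex

end Pool.Agent.Results.MP_36bee5_al.EveryField
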